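import Pool.Agent.H97.SDG.Targets

/-!
# The chosen bits of the boundary occur in the clause (BDG)
-/

set_option autoImplicit false

open Finset

namespace Pool.Agent.H97.SDG

open Pool.Agent.H97.SD Pool.Agent.H97.SDQ

theorem wt_le_of {N M k : ℕ} (σ : Fin M → Fin k → Fin N) (c : Fin M) {O O' : Finset (Fin N)}
    (h : O ⊆ O') (i : Fin k) (hi : σ c i ∈ O') (hi' : σ c i ∉ O) : wt σ c O < wt σ c O' := by
  unfold wt
  refine card_lt_card ⟨fun i hi => ?_, fun hsub => ?_⟩
  · rw [mem_filter] at hi ⊢
    exact ⟨hi.1, h hi.2⟩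
  · have h1 : i ∈ univ.filter (fun i : Fin k => σ c i ∈ O') := by
      rw [mem_filter]
      exact ⟨mem_univ _, hi⟩
    have h2 := hsub h1
    rw [mem_filter] at h2
    exact hi' h2.2

theorem pf_BDG : P_BDG := by
  classical
  intro N M k a b σ h α u J C hImp hmin j hj
  unfold bd at hj
  rw [mem_filter] at hj
  obtain ⟨-, c, hc, ⟨i₀, hi₀⟩, huniq⟩ := hj
  unfold alive
  rw [mem_filter]
  refine ⟨mem_univ _, ?_⟩
  by_contra hnot
  have h1 := hmin c hc
  unfold Imp at h1
  push Not at h1
  obtain ⟨O, hO, hF⟩ := h1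
  have hFc : wt σ c O = h c := by
    by_contra hne
    refine hImp O (fun c' hc' => ?_) hF
    by_cases hcc : c' = c
    · rw [hcc]
      exact hne
    · exact hO c' (mem_erase.2 ⟨hcc, hc'⟩)
  obtain ⟨O', hO'⟩ : ∃ O' : Finset (Fin N), ∀ v, v ∈ O' ↔ (v ≠ j ∧ v ∈ O) ∨ (v = j ∧ j ∉ O) := by
    refine ⟨if j ∈ O then O.erase j else insert j O, fun v => ?_⟩
    by_cases hj : j ∈ O
    · rw [if_pos hj, mem_erase]
      constructor
      · rintro ⟨h1, h2⟩
        exact Or.inl ⟨h1, h2⟩
      · rintro (⟨h1, h2⟩ | ⟨h1, h2⟩)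
        · exact ⟨h1, h2⟩
        · exact absurd hj h2
    · rw [if_neg hj, mem_insert]
      constructor
      · rintro (h1 | h1)
        · exact Or.inr ⟨h1, hj⟩
        · refine Or.inl ⟨?_, h1⟩
          rintro rfl
          exact hj h1
      · rintro (⟨h1, h2⟩ | ⟨h1, h2⟩)
        · exact Or.inr h2
        · exact Or.inl h1
  have hne : wt σ c O' ≠ wt σ c O := by
    by_cases hj : j ∈ O
    · have h2 : wt σ c O' < wt σ c O := by
        refine wt_le_of σ c ?_ i₀ ?_ ?_
        · intro v hv
          rcases (hO' v).1 hv with ⟨-, h3⟩ | ⟨-, h3⟩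
          · exact h3
          · exact absurd hj h3
        · rw [hi₀]
          exact hj
        · rw [hi₀, hO']
          rintro (⟨h3, -⟩ | ⟨-, h3⟩)
          · exact h3 rfl
          · exact h3 hj
      omega
    · have h2 : wt σ c O < wt σ c O' := by
        refine wt_le_of σ c ?_ i₀ ?_ ?_
        · intro v hv
          refine (hO' v).2 (Or.inl ⟨?_, hv⟩)
          rintro rfl
          exact hj hv
        · rw [hi₀, hO']
          exact Or.inr ⟨rfl, hj⟩
        · rw [hi₀]
          exact hj
      omega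
  refine hImp O' (fun c' hc' => ?_) ?_
  · by_cases hcc : c' = c
    · rw [hcc, ← hFc]
      exact hne
    · have h2 : wt σ c' O' = wt σ c' O := by
        unfold wt
        congr 1
        refine filter_congr fun i _ => ?_
        have h3 : σ c' i ≠ j := fun h4 => hcc (huniq c' hc' ⟨i, h4⟩)
        rw [hO']
        constructor
        · rintro (⟨-, h4⟩ | ⟨h4, -⟩)
          · exact h4
          · exact absurd h4 h3
        · exact fun h4 => Or.inl ⟨h3, h4⟩
      rw [h2]
      exact hO c' (mem_erase.2 ⟨hcc, hc'⟩)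
  · intro l hl
    have h2 : flp α u O' l.1 = flp α u O l.1 := by
      unfold flp
      by_cases hlj : l.1.1 = j
      · have h3 : l.1.2 ≠ u l.1.1 := by
          intro h4
          apply hnot
          refine mem_image.2 ⟨l, hl, ?_⟩
          rw [← hlj]
          exact Prod.ext rfl h4
        rw [if_neg (fun h4 => h3 h4.2), if_neg (fun h4 => h3 h4.2)]
      · have h3 : l.1.1 ∈ O' ↔ l.1.1 ∈ O := by
          rw [hO']
          constructor
          · rintro (⟨-, h4⟩ | ⟨h4, -⟩)
            · exact h4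
            · exact absurd h4 hlj
          · exact fun h4 => Or.inl ⟨hlj, h4⟩
        simp only [h3]
    rw [h2]
    exact hF l hl

end Pool.Agent.H97.SDG
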