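import Pool.Agent.H97.SDG.Targets
import Pool.Agent.H73.SD.NE2

/-!
# The numerical inequality for (E3) (NF3), with lemmas of helper73's NE2
-/

set_option autoImplicit false

open Finset

namespace Pool.Agent.H97.SDG

open Pool.Agent.H97.SD Pool.Agent.H97.SDQ

theorem pw_aux (j : ℕ) (hj : 10 ≤ j) : 486 * ((4 * j + 3) * (4 * j + 4)) ≤ 49 ^ (j - 1) := by
  induction j, hj using Nat.le_induction with
  | base => norm_num
  | succ j hj ih =>
    have h1 : 49 ^ (j + 1 - 1) = 49 * 49 ^ (j - 1) := by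
      rw [← pow_succ']
      congr 1
      omega
    rw [h1]
    nlinarith

theorem pw (k : ℕ) (hk : 40 ≤ k) : 486 * (k * (k + 1)) ≤ 49 ^ (k / 4 - 1) := by
  have h1 : 10 ≤ k / 4 := by omega
  have h2 : k ≤ 4 * (k / 4) + 3 := by omega
  refine le_trans ?_ (pw_aux (k / 4) h1)
  exact Nat.mul_le_mul_left _ (Nat.mul_le_mul h2 (by omega))

theorem nf3_bracket (k N s v : ℕ) (hk : 40 ≤ k) (hv : 4 * v ≤ 3 * k * s)
    (hs : 1000 * k * s ≤ N) :
    8 * (3 * ((k + 1) * N)) * (27 * v) ^ (k / 4) ≤ s * N ^ (k / 4) := by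
  obtain ⟨j, hj⟩ : ∃ j, k / 4 = j + 1 := ⟨k / 4 - 1, by omega⟩
  have hp := pw k hk
  rw [hj] at hp ⊢
  have e0 : j + 1 - 1 = j := by omega
  rw [e0] at hp
  have h1 : 4 * (27 * v) ≤ 81 * (k * s) := by nlinarith
  have h2 : 49 * (27 * v) ≤ N := by nlinarith
  have h3 : (49 * (27 * v)) ^ j ≤ N ^ j := Nat.pow_le_pow_left h2 j
  have h4 : 4 * 49 ^ j * (8 * (3 * ((k + 1) * N)) * (27 * v) ^ (j + 1)) ≤
      4 * 49 ^ j * (s * N ^ (j + 1)) := by
    calc 4 * 49 ^ j * (8 * (3 * ((k + 1) * N)) * (27 * v) ^ (j + 1))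
        = 24 * ((k + 1) * N) * (4 * (27 * v)) * (49 * (27 * v)) ^ j := by
          rw [mul_pow 49]
          ring
      _ ≤ 24 * ((k + 1) * N) * (81 * (k * s)) * N ^ j :=
          Nat.mul_le_mul (Nat.mul_le_mul_left _ h1) h3
      _ = 4 * (486 * (k * (k + 1))) * (s * N ^ (j + 1)) := by ring
      _ ≤ 4 * 49 ^ j * (s * N ^ (j + 1)) :=
          Nat.mul_le_mul_right _ (Nat.mul_le_mul_left _ hp)
  exact Nat.le_of_mul_le_mul_left h4 (by positivity)

theorem nf3_term (k N s : ℕ) (hk : 40 ≤ k) (hs1 : 1 ≤ s) (hs : 1000 * k * s ≤ N)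
    (hM : s ≤ (k + 1) * N) :
    8 ^ s * (((k + 1) * N).choose s * N.choose (3 * k * s / 4) *
      (3 * k * s / 4) ^ (k * s) * N ^ (k * ((k + 1) * N - s))) ≤ N ^ (k * ((k + 1) * N)) := by
  obtain ⟨v, hv⟩ : ∃ v, v = 3 * k * s / 4 := ⟨_, rfl⟩
  obtain ⟨M, hMd⟩ : ∃ M, M = (k + 1) * N := ⟨_, rfl⟩
  rw [← hv, ← hMd]
  rw [← hMd] at hM
  have hv4 : 4 * v ≤ 3 * k * s := by omega
  have hks : 3 * k * s = 3 * (k * s) := by ring
  obtain ⟨u, hu⟩ : ∃ u, k * s = v + u := ⟨k * s - v, by omega⟩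
  have hvu : v ≤ 3 * u := by omega
  have huk : k * s ≤ 4 * u := by omega
  obtain ⟨u', hu'⟩ : ∃ u', u = s * (k / 4) + u' := by
    refine ⟨u - s * (k / 4), ?_⟩
    have h1 : 4 * (s * (k / 4)) ≤ k * s := by
      calc 4 * (s * (k / 4)) = s * (4 * (k / 4)) := by ring
        _ ≤ s * k := Nat.mul_le_mul_left _ (Nat.mul_div_le k 4)
        _ = k * s := by ring
    omega
  have hvN : 27 * v ≤ N := by nlinarith
  -- choose N v
  have h1 : N.choose v * v ^ (k * s) ≤ N ^ v * (27 * v) ^ u := by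
    calc N.choose v * v ^ (k * s) = N.choose v * v ^ v * v ^ u := by
          rw [hu, pow_add]
          ring
      _ ≤ (3 * N) ^ v * v ^ u :=
          Nat.mul_le_mul_right _ (Pool.Agent.H73.SD.NE2.choose_le N v)
      _ = 3 ^ v * (N ^ v * v ^ u) := by
          rw [mul_pow]
          ring
      _ ≤ 3 ^ (3 * u) * (N ^ v * v ^ u) :=
          Nat.mul_le_mul_right _ (Nat.pow_le_pow_right (by norm_num) hvu)
      _ = N ^ v * (27 * v) ^ u := by
          rw [mul_pow 27, pow_mul]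
          norm_num
          ring
  -- the bracket
  have h2 : 8 ^ s * M.choose s * (27 * v) ^ u ≤ N ^ u := by
    have h3 : (8 ^ s * M.choose s * (27 * v) ^ u) * s ^ s ≤ N ^ u * s ^ s := by
      calc (8 ^ s * M.choose s * (27 * v) ^ u) * s ^ s
          = 8 ^ s * (M.choose s * s ^ s) * (27 * v) ^ u := by ring
        _ ≤ 8 ^ s * (3 * M) ^ s * (27 * v) ^ u :=
            Nat.mul_le_mul_right _ (Nat.mul_le_mul_left _
              (Pool.Agent.H73.SD.NE2.choose_le M s))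
        _ = (8 * (3 * M) * (27 * v) ^ (k / 4)) ^ s * (27 * v) ^ u' := by
            rw [hu', pow_add, mul_comm s (k / 4), pow_mul, mul_pow (8 * (3 * M)), mul_pow 8]
            ring
        _ ≤ (s * N ^ (k / 4)) ^ s * N ^ u' := by
            refine Nat.mul_le_mul (Nat.pow_le_pow_left ?_ s) (Nat.pow_le_pow_left hvN u')
            rw [hMd]
            exact nf3_bracket k N s v hk hv4 hs
        _ = N ^ u * s ^ s := by
            rw [hu', pow_add, mul_comm s (k / 4), pow_mul, mul_pow]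
            ring
    exact Nat.le_of_mul_le_mul_right h3 (by positivity)
  calc 8 ^ s * (M.choose s * N.choose v * v ^ (k * s) * N ^ (k * (M - s)))
      = 8 ^ s * M.choose s * (N.choose v * v ^ (k * s)) * N ^ (k * (M - s)) := by ring
    _ ≤ 8 ^ s * M.choose s * (N ^ v * (27 * v) ^ u) * N ^ (k * (M - s)) :=
        Nat.mul_le_mul_right _ (Nat.mul_le_mul_left _ h1)
    _ = N ^ v * (8 ^ s * M.choose s * (27 * v) ^ u) * N ^ (k * (M - s)) := by ring
    _ ≤ N ^ v * N ^ u * N ^ (k * (M - s)) :=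
        Nat.mul_le_mul_right _ (Nat.mul_le_mul_left _ h2)
    _ = N ^ (k * M) := by
        rw [← pow_add, ← pow_add, ← hu, ← mul_add]
        congr 2
        omega

theorem pf_NF3 : P_NF3 := by
  refine ⟨40, fun k N hk hkN => ?_⟩
  have hN : 0 < N := by omega
  set T : ℕ := N ^ (k * ((k + 1) * N)) with hT
  have hTpos : (0 : ℝ) < T := by
    have : 0 < T := by rw [hT]; positivity
    exact_mod_cast this
  have hterm : ∀ s ∈ Icc 1 (N / (1000 * k)),
      ((((k + 1) * N).choose s * N.choose (3 * k * s / 4) *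
      (3 * k * s / 4) ^ (k * s) * N ^ (k * ((k + 1) * N - s)) : ℕ) : ℝ) ≤ T * (1 / 8) ^ s := by
    intro s hs
    rw [Finset.mem_Icc] at hs
    have hs2 : 1000 * k * s ≤ N := by
      calc 1000 * k * s ≤ 1000 * k * (N / (1000 * k)) := Nat.mul_le_mul_left _ hs.2
        _ ≤ N := Nat.mul_div_le N (1000 * k)
    have hs3 : s ≤ (k + 1) * N := by
      have h1 : s ≤ 1000 * k * s := Nat.le_mul_of_pos_left s (by omega)
      have h2 : N ≤ (k + 1) * N := Nat.le_mul_of_pos_left N (by omega)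
      omega
    have h := nf3_term k N s hk hs.1 hs2 hs3
    have h' : (8 : ℝ) ^ s * ((((k + 1) * N).choose s * N.choose (3 * k * s / 4) *
      (3 * k * s / 4) ^ (k * s) * N ^ (k * ((k + 1) * N - s)) : ℕ) : ℝ) ≤ T := by
      exact_mod_cast h
    rw [one_div, inv_pow, ← div_eq_mul_inv, le_div_iff₀ (by positivity), mul_comm]
    exact h'
  have hsum : ((∑ s ∈ Icc 1 (N / (1000 * k)), ((k + 1) * N).choose s *
      N.choose (3 * k * s / 4) * (3 * k * s / 4) ^ (k * s) *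
        N ^ (k * ((k + 1) * N - s)) : ℕ) : ℝ) ≤ T * (1 / 7) := by
    rw [Nat.cast_sum]
    refine (Finset.sum_le_sum hterm).trans ?_
    rw [← Finset.mul_sum]
    exact mul_le_mul_of_nonneg_left (Pool.Agent.H73.SD.NE2.geom _) hTpos.le
  have hfin : ((4 * ∑ s ∈ Icc 1 (N / (1000 * k)), ((k + 1) * N).choose s *
      N.choose (3 * k * s / 4) * (3 * k * s / 4) ^ (k * s) *
        N ^ (k * ((k + 1) * N - s)) : ℕ) : ℝ) < T := by
    rw [Nat.cast_mul]
    generalize hX : (∑ s ∈ Icc 1 (N / (1000 * k)), ((k + 1) * N).choose s *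
      N.choose (3 * k * s / 4) * (3 * k * s / 4) ^ (k * s) *
        N ^ (k * ((k + 1) * N - s))) = X at hsum ⊢
    push_cast
    linarith
  exact_mod_cast hfin

end Pool.Agent.H97.SDG
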