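import Pool.Agent.H97.SDG.Targets

/-!
# The lower bound for general refutations, numerically (PLG)
-/

set_option autoImplicit false

open Finset

namespace Pool.Agent.H97.SDG

open Pool.Agent.H97.SD Pool.Agent.H97.SDQ

theorem pf_PLG : P_PLG := by
  obtain ⟨Q, hQ⟩ := exists_nat_ge ((2 : ℝ) ^ (16000 : ℝ))
  refine ⟨2 * Q + 3, fun A hA => ⟨by omega, 16000 * A, by omega, ?_⟩⟩
  intro K n w a hK ha hw hn N k s₀ S hN hk hs
  have hA1 : 1 ≤ A := by omega
  have haA : 0 < a * A := Nat.mul_pos ha hA1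
  have hKA : A ≤ K := le_trans (by omega) hK
  have hK16 : 16000 ≤ K := le_trans (by omega) hK
  have hk1 : 1 ≤ k := by
    rw [hk, Nat.le_div_iff_mul_le haA, one_mul]
    calc a * A ≤ a * K := Nat.mul_le_mul_left a hKA
      _ = K * a := by ring
      _ ≤ w := hw
  have hkw : k * (a * A) ≤ w := by
    rw [hk]
    exact Nat.div_mul_le_self _ _
  have hNk : 16000 * k ≤ N := by
    rw [hN, Nat.le_div_iff_mul_le haA]
    calc 16000 * k * (a * A) = 16000 * (k * (a * A)) := by ring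
      _ ≤ 16000 * w := Nat.mul_le_mul_left _ hkw
      _ ≤ K * w := Nat.mul_le_mul_right _ hK16
      _ ≤ n := hn
  have hN16 : 16000 ≤ N := le_trans (by omega) hNk
  have hs2 : 2 ≤ s₀ := by
    rw [hs, Nat.le_div_iff_mul_le (by omega)]
    omega
  have hsp : s₀ ≤ 2 * A * N / k + 1 := by
    have h1 : N / (1000 * k) ≤ N / k := Nat.div_le_div_left (by omega) hk1
    have h2 : N / k ≤ 2 * A * N / k := by
      refine Nat.div_le_div_right ?_
      nlinarith
    rw [hs]
    omega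
  refine ⟨hs2, hsp, fun hyp => ?_⟩
  obtain ⟨W, hW⟩ : ∃ W : ℕ, W = k * s₀ / 4 := ⟨_, rfl⟩
  rw [← hW] at hyp
  -- lower bound for `W`
  have hWN : N ≤ 8000 * W := by
    have h1 : N < 1000 * k * (s₀ + 1) := by
      rw [hs]
      exact Nat.lt_mul_div_succ N (by omega)
    have h2 : 1000 * k * (s₀ + 1) = 1000 * (k * s₀) + 1000 * k := by ring
    omega
  have hNn : n ≤ 2 * (a * A) * N := by
    have h1 : n < a * A * (N + 1) := by
      rw [hN]
      exact Nat.lt_mul_div_succ n haA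
    have h2 : a * A * (N + 1) ≤ a * A * (2 * N) := Nat.mul_le_mul_left _ (by omega)
    have h3 : a * A * (2 * N) = 2 * (a * A) * N := by ring
    omega
  have haR : (1 : ℝ) ≤ a := by exact_mod_cast ha
  have ha0 : (0 : ℝ) < a := by linarith
  obtain ⟨x, hx⟩ : ∃ x : ℝ, x = Real.logb 2 a := ⟨_, rfl⟩
  have hx0 : 0 ≤ x := by
    rw [hx]
    exact Real.logb_nonneg (by norm_num) haR
  have hax : (a : ℝ) = (2 : ℝ) ^ x := by
    rw [hx, Real.rpow_logb (by norm_num) (by norm_num) ha0]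
  have hAQ : 2 * (Q : ℝ) ≤ A := by
    have : 2 * Q ≤ A := by omega
    exact_mod_cast this
  have hQ0 : (0 : ℝ) < (2 : ℝ) ^ (16000 : ℝ) := Real.rpow_pos_of_pos (by norm_num) _
  have h1 : ((2 : ℝ) ^ (x + 16000)) ^ W ≤ (S : ℝ) * 2 ^ N := by
    have h2 : ((a : ℝ) * A) ^ W ≤ S * 2 ^ N * 2 ^ W := by exact_mod_cast hyp
    have h3 : 2 * (2 : ℝ) ^ (x + 16000) ≤ a * A := by
      rw [Real.rpow_add (by norm_num), ← hax]
      nlinarith
    have h4 : (2 : ℝ) ^ W * ((2 : ℝ) ^ (x + 16000)) ^ W ≤ (2 : ℝ) ^ W * (S * 2 ^ N) := by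
      rw [← mul_pow]
      calc (2 * (2 : ℝ) ^ (x + 16000)) ^ W ≤ ((a : ℝ) * A) ^ W :=
            pow_le_pow_left₀ (by positivity) h3 _
        _ ≤ S * 2 ^ N * 2 ^ W := h2
        _ = (2 : ℝ) ^ W * (S * 2 ^ N) := by ring
    exact le_of_mul_le_mul_left h4 (by positivity)
  have h5 : (2 : ℝ) ^ ((x + 16000) * W - N) ≤ S := by
    rw [Real.rpow_sub (by norm_num), Real.rpow_natCast, Real.rpow_mul (by norm_num),
      Real.rpow_natCast, div_le_iff₀ (by positivity)]
    exact h1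
  refine le_trans ?_ h5
  refine Real.rpow_le_rpow_of_exponent_le (by norm_num) ?_
  rw [← hx]
  clear h5 h1 hQ0 hQ hax hyp
  have hWR : (N : ℝ) ≤ 8000 * W := by exact_mod_cast hWN
  have hNR : (n : ℝ) ≤ 2 * (a * A) * N := by exact_mod_cast hNn
  have hKR : 16000 * (A : ℝ) ≤ K := by exact_mod_cast hK
  have hA0 : (0 : ℝ) < A := by exact_mod_cast hA1
  have hK0 : (0 : ℝ) < K := lt_of_lt_of_le (by positivity) hKR
  have hN0 : (0 : ℝ) ≤ N := Nat.cast_nonneg N
  have h6 : (1 + x) * (N / 8000) ≤ (x + 16000) * W - N := by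
    have h7 : (x + 16000) * (N / 8000) ≤ (x + 16000) * W :=
      mul_le_mul_of_nonneg_left (by linarith) (by linarith)
    have h8 : (x + 16000) * (N / 8000) = x * (N / 8000) + 2 * N := by ring
    nlinarith
  refine le_trans ?_ h6
  rw [div_le_iff₀ (by positivity)]
  have h9 : (n : ℝ) ≤ N / 8000 * (K * a) := by
    have h10 : 2 * ((a : ℝ) * A) * N ≤ N / 8000 * (K * a) := by
      have h11 : 0 ≤ (a : ℝ) * N * (K - 16000 * A) := by
        apply mul_nonneg (by positivity)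
        linarith
      nlinarith
    linarith
  calc (n : ℝ) * (1 + x) ≤ N / 8000 * (K * a) * (1 + x) :=
        mul_le_mul_of_nonneg_right h9 (by linarith)
    _ = (1 + x) * (N / 8000) * (K * a) := by ring

end Pool.Agent.H97.SDG
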