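import Pool.Agent.H97.SDG.Targets

/-!
# Under each restriction some line is wide (WIG)
-/

set_option autoImplicit false

open Finset

namespace Pool.Agent.H97.SDG

open Pool.Agent.H97.SD Pool.Agent.H97.SDQ

theorem wt_of_ax {N M k a b : ℕ} (σ : Fin M → Fin k → Fin N) (h : Fin M → ℕ) (c : Fin M)
    (z x : BV N a b → Bool) (C : Clause (BV N a b)) (hz : wt σ c (Y z) = h c)
    (hA : ax σ c z ⊆ C) (hF : Falsified C x) : wt σ c (Y x) = h c := by
  have hag : ∀ v : BV N a b, (∃ i, σ c i = v.1) → x v = z v := by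
    intro v hv
    have h1 : (v, !(z v)) ∈ ax σ c z := by
      unfold ax
      exact mem_image.2 ⟨v, mem_filter.2 ⟨mem_univ _, hv⟩, rfl⟩
    have h2 := hF _ (hA h1)
    simp only at h2
    cases h3 : x v <;> cases h4 : z v <;> simp_all
  rw [← hz]
  unfold wt
  congr 1
  refine filter_congr fun i _ => ?_
  unfold Y
  rw [mem_filter, mem_filter]
  have h5 : ∀ g, par x (σ c i) g = par z (σ c i) g := by
    intro g
    unfold par
    congr 1
    refine filter_congr fun i' _ => ?_
    rw [hag (σ c i, g, i') ⟨i, rfl⟩]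
  simp only [h5]

theorem oneFlip_flp {N a b : ℕ} (α : BV N a b → Bool) (u : Fin N → Fin a × Fin b)
    (O : Finset (Fin N)) : OneFlip α (flp α u O) O := by
  refine ⟨fun v hv => ?_, fun j hj => ⟨u j, ?_, fun u' hu' => ?_⟩⟩
  · unfold flp
    rw [if_neg (fun h => hv h.1)]
  · unfold flp
    rw [if_pos ⟨hj, rfl⟩]
    cases α (j, u j) <;> simp
  · unfold flp
    rw [if_neg (fun h => hu' h.2)]

theorem pf_WIG (hONE : P_ONE) (hSAG : P_SAG) (hBDG : P_BDG) : P_WIG := by
  classical
  intro N M k a b σ h r p s₀ S r₀ line rule α u hN hr hs hsp hE2 hE3 href hα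
  have hY : ∀ O, Y (flp α u O) = O := fun O =>
    (hONE N M k a b σ h).1 α (flp α u O) O hα (oneFlip_flp α u O)
  let Small : ℕ → Prop := fun i => ∃ J : Finset (Fin M), 2 * J.card ≤ s₀ ∧
    Imp σ h α u J (line i)
  have hroot : ¬ Small r₀ := by
    rintro ⟨J, hJ, hImp⟩
    obtain ⟨O, hO⟩ := hSAG N M k σ h p r hN hr hE2 J (by omega)
    refine hImp O hO ?_
    rw [href.2.1]
    intro l hl
    exact absurd hl (notMem_empty l)
  have hex : ∃ i, i < S ∧ ¬ Small i := ⟨r₀, href.1, hroot⟩
  obtain ⟨i, ⟨hi, hns⟩, hmin⟩ : ∃ i, (i < S ∧ ¬ Small i) ∧ ∀ j, j < i → ¬ (j < S ∧ ¬ Small j) :=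
    ⟨Nat.find hex, Nat.find_spec hex, fun j hj => Nat.find_min hex hj⟩
  have hsm : ∀ j, j < i → Small j := by
    intro j hj
    by_contra hcon
    exact hmin j hj ⟨by omega, hcon⟩
  -- a set of constraints of size at most `s₀` implying line `i`
  have hJ : ∃ J : Finset (Fin M), J.card ≤ s₀ ∧ Imp σ h α u J (line i) := by
    have hcor := href.2.2 i hi
    cases hrule : rule i with
    | ax =>
      rw [hrule] at hcor
      obtain ⟨A, hA, hAi⟩ := hcor
      exfalso
      apply hns
      unfold FF at hA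
      obtain ⟨⟨c, z⟩, hcz, rfl⟩ := mem_image.1 hA
      have hcz' : wt σ c (Y z) = h c := (mem_filter.1 hcz).2
      refine ⟨{c}, by rw [card_singleton]; omega, fun O hO hF => ?_⟩
      have h1 := wt_of_ax σ h c z (flp α u O) (line i) hcz' hAi hF
      rw [hY] at h1
      exact hO c (mem_singleton_self c) h1
    | weak j =>
      rw [hrule] at hcor
      obtain ⟨hji, hsub⟩ := hcor
      exfalso
      apply hns
      obtain ⟨J, hJc, hJ⟩ := hsm j hji
      exact ⟨J, hJc, fun O hO hF => hJ O hO (fun l hl => hF l (hsub hl))⟩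
    | res x j k' =>
      rw [hrule] at hcor
      obtain ⟨hji, hki, hsub1, hsub2⟩ := hcor
      obtain ⟨J₀, hc₀, hJ₀⟩ := hsm j hji
      obtain ⟨J₁, hc₁, hJ₁⟩ := hsm k' hki
      refine ⟨J₀ ∪ J₁, ?_, fun O hO hF => ?_⟩
      · have := card_union_le J₀ J₁
        omega
      · cases hx : flp α u O x with
        | true =>
          refine hJ₁ O (fun c hc => hO c (mem_union_right _ hc)) (fun l hl => ?_)
          rcases mem_insert.1 (hsub2 hl) with rfl | h1
          · simp only
            rw [hx]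
            simp
          · exact hF l h1
        | false =>
          refine hJ₀ O (fun c hc => hO c (mem_union_left _ hc)) (fun l hl => ?_)
          rcases mem_insert.1 (hsub1 hl) with rfl | h1
          · simp only
            rw [hx]
            simp
          · exact hF l h1
  obtain ⟨J, ⟨hJc, hJI⟩, hJmin⟩ : ∃ J : Finset (Fin M), (J.card ≤ s₀ ∧ Imp σ h α u J (line i)) ∧
      ∀ J' : Finset (Fin M), J'.card ≤ s₀ ∧ Imp σ h α u J' (line i) → J.card ≤ J'.card := by
    have hne : (univ.filter (fun J : Finset (Fin M) =>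
        J.card ≤ s₀ ∧ Imp σ h α u J (line i))).Nonempty := by
      obtain ⟨J, hJ1⟩ := hJ
      exact ⟨J, mem_filter.2 ⟨mem_univ _, hJ1⟩⟩
    obtain ⟨J, hJ1, hJ2⟩ := exists_min_image _ (fun J : Finset (Fin M) => J.card) hne
    exact ⟨J, (mem_filter.1 hJ1).2, fun J' hJ' => hJ2 J' (mem_filter.2 ⟨mem_univ _, hJ'⟩)⟩
  have hbig : s₀ < 2 * J.card := by
    by_contra hcon
    exact hns ⟨J, not_lt.1 hcon, hJI⟩
  have herase : ∀ c ∈ J, ¬ Imp σ h α u (J.erase c) (line i) := by
    intro c hc hImp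
    have h1 := card_erase_of_mem hc
    have h2 := hJmin (J.erase c) ⟨by omega, hImp⟩
    have h3 : 0 < J.card := card_pos.2 ⟨c, hc⟩
    omega
  have hne : J.Nonempty := by
    rw [← card_pos]
    omega
  refine ⟨i, hi, ?_, ?_⟩
  · obtain ⟨c, hc⟩ := hne
    have h1 := herase c hc
    unfold Imp at h1
    push Not at h1
    obtain ⟨O, -, hF⟩ := h1
    exact ⟨O, hF⟩
  · have h1 := hBDG N M k a b σ h α u J (line i) hJI herase
    have h2 := card_le_card h1
    have h3 := hE3 J hJc
    have h4 : k * s₀ ≤ k * (2 * J.card) := Nat.mul_le_mul_left k hbig.le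
    have h5 : k * (2 * J.card) = 2 * (k * J.card) := by ring
    omega

end Pool.Agent.H97.SDG
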