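import Pool.Agent.H97.SDG.Asm
import Pool.Agent.H97.SDG.BDG
import Pool.Agent.H97.SDG.WIG
import Pool.Agent.H97.SDG.PLG
import Pool.Agent.H97.SDG.NF3
import Pool.Agent.H97.SDQ.All
import Pool.Agent.H9.SDQ.TRQ
import Pool.Agent.H9.SDG.CNG
import Pool.Agent.H9.SDG.SAG
import Pool.Agent.H14.SDG.EXG
import Pool.Agent.H14.SDG.NF2
import Pool.Agent.H3.SDG.CE3
import Pool.Agent.H3.SDG.NF1

/-!
# The final theorem (third part of SD)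
-/

set_option autoImplicit false

namespace Pool.Agent.H97.SDG

open Finset Pool.Agent.H97.SD Pool.Agent.H97.SDQ

theorem tEXG : P_EXG :=
  Pool.Agent.H14.SDG.pf_EXG Pool.Agent.H24.SD.pf_CE1 Pool.Agent.H24.SD.pf_CE2
    Pool.Agent.H3.SDG.pf_CE3 Pool.Agent.H3.SDG.pf_NF1 Pool.Agent.H14.SDG.pf_NF2 pf_NF3

theorem tWIG : P_WIG :=
  pf_WIG Pool.Agent.H24.SD.pf_ONE (Pool.Agent.H9.SDG.pf_SAG tHAL pf_FIX) pf_BDG

theorem tFIG (hKEG : P_KEG) : P_FIG :=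
  pf_FIG pf_TRU pf_UNS Pool.Agent.H96.SD.pf_SIZ tUPB tEXG Pool.Agent.H20.SD.pf_PU
    Pool.Agent.H96.SD.pf_PK pf_SEQ Pool.Agent.H9.SDQ.pf_TRQ tLOQ pf_BIN
    Pool.Agent.H99.SDQ.pf_PLQ tWIG
    (Pool.Agent.H9.SDG.pf_CNG Pool.Agent.H36.SD.pf_PAT hKEG) pf_PLG

end Pool.Agent.H97.SDG
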