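import Pool.Agent.H97.SDG.Targets
import Pool.Agent.H97.SDQ.Asm

/-!
# Assembly of the final theorem from the rows
-/

set_option autoImplicit false

open Finset

namespace Pool.Agent.H97.SDG

open Pool.Agent.H97.SD Pool.Agent.H97.SDQ

theorem pf_FIG (hTRU : P_TRU) (hUNS : P_UNS) (hSIZ : P_SIZ) (hUPB : P_UPB) (hEXG : P_EXG)
    (hPU : P_PU) (hPK : P_PK) (hSEQ : P_SEQ) (hTRQ : P_TRQ) (hLOQ : P_LOQ) (hBIN : P_BIN)
    (hPLQ : P_PLQ) (hWIG : P_WIG) (hCNG : P_CNG) (hPLG : P_PLG) : P_FIG := by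
  intro ε hε
  obtain ⟨A₀, hA₀⟩ := hPLG
  obtain ⟨A, hA⟩ : ∃ A : ℕ, A = max A₀ ⌈12 / ε⌉₊ := ⟨_, rfl⟩
  obtain ⟨hA3, K5, hK5, h5⟩ := hA₀ A (by rw [hA]; exact le_max_left _ _)
  have hA2 : 2 ≤ A := by omega
  have hA12 : 12 ≤ ε * A := by
    have h1 : 12 / ε ≤ A := (Nat.le_ceil _).trans (by rw [hA]; exact_mod_cast le_max_right _ _)
    rwa [div_le_iff₀ hε, mul_comm] at h1
  obtain ⟨k₀, hk₀⟩ := hEXG A (by omega)
  obtain ⟨K1, hK1, h1⟩ := hPLQ ε A hε hA2 hA12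
  obtain ⟨K2, hK2, h2⟩ := hPU A hA2
  obtain ⟨K3, hK3, h3⟩ := hPK A k₀ hA2
  obtain ⟨K4, hK4, h4⟩ := hBIN A (by omega)
  obtain ⟨K, hK⟩ : ∃ K : ℕ, K = K1 + K2 + K3 + K4 + K5 := ⟨_, rfl⟩
  refine ⟨K, by omega, fun n w a ha hw hn => ?_⟩
  have le1 : K1 ≤ K := by omega
  have le2 : K2 ≤ K := by omega
  have le3 : K3 ≤ K := by omega
  have le4 : K4 ≤ K := by omega
  have le5 : K5 ≤ K := by omega
  obtain ⟨N, hN⟩ : ∃ N : ℕ, N = n / (a * A) := ⟨_, rfl⟩
  obtain ⟨k, hk⟩ : ∃ k : ℕ, k = w / (a * A) := ⟨_, rfl⟩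
  obtain ⟨hk0, hk1, hkN, hr1, hkw, hNn⟩ := h3 n w a ha ((Nat.mul_le_mul_right a le3).trans hw)
    ((Nat.mul_le_mul_right w le3).trans hn)
  rw [← hk] at hk0 hk1 hkN hr1 hkw
  rw [← hN] at hkN hNn
  obtain ⟨σ, hE1, hE2, hE3⟩ := hk₀ k N hk0 hkN
  have hN1 : 1 ≤ N := hk1.trans hkN
  obtain ⟨h, hh⟩ := hUNS N k σ hN1 hk1
  obtain ⟨ι⟩ := exists_emb N a A n hNn
  obtain ⟨hw', hc', hu'⟩ := hSIZ N ((k + 1) * N) k a A σ h
  obtain ⟨hU1, hU2, hU3⟩ := h2 n w a ha ((Nat.mul_le_mul_right a le2).trans hw)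
    ((Nat.mul_le_mul_right w le2).trans hn) N k hN hk
  refine ⟨(FF a A σ h).image (ren ι), ?_, ?_, ?_, ?_, ?_⟩
  · intro C hC
    obtain ⟨C₀, hC₀, rfl⟩ := Finset.mem_image.1 hC
    exact ((card_ren ι C₀).trans (hw' C₀ hC₀)).trans hkw
  · exact (Finset.card_image_le.trans hc').trans hU2
  · intro z
    obtain ⟨C, hC, hz⟩ := hu' hh (fun v => z (ι v))
    refine ⟨ren ι C, Finset.mem_image_of_mem _ hC, fun l hl => ?_⟩
    obtain ⟨l₀, hl₀, rfl⟩ := Finset.mem_image.1 hl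
    exact hz l₀ hl₀
  · intro S r line rule href
    obtain ⟨line', rule', href', hpath'⟩ := hTRQ (BV N a A) (Fin n) ι (FF a A σ h) S r line rule
      href
    obtain ⟨hs1, hs2, hs3⟩ := h5 K n w a le5 ha hw hn N k (N / (1000 * k)) S hN hk rfl
    refine ⟨hs3 (hCNG N a A S _ line' ha hA3 fun α u hα => ?_), ?_⟩
    · obtain ⟨i, hi, hO, hal⟩ := hWIG N ((k + 1) * N) k a A σ h (k / (4 * A * A))
        (2 * A * N / k + 1) (N / (1000 * k)) S r line' rule' α u hN1 (Nat.div_le_self _ _) hs1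
        hs2 hE2 hE3 href' hα
      refine ⟨i, hi, hO, ?_⟩
      omega
    intro hpath
    have hKa : 0 < K * a := Nat.mul_pos (by omega) ha
    have hcond : ∀ (i : ℕ) (l : List (BV N a A)), Path rule' r i l →
        (often (w / (K * a)) l).card ≤ n / K := by
      intro i l' hl'
      obtain ⟨l, hl, hcount⟩ := hpath' i l' hl'
      have h5' := hpath i l hl
      rw [Nat.le_div_iff_mul_le (by omega), mul_comm]
      refine le_trans (Nat.mul_le_mul_left K ?_) h5'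
      rw [← card_map ι]
      refine card_le_card fun u hu => ?_
      obtain ⟨v, hv, rfl⟩ := Finset.mem_map.1 hu
      unfold often at hv
      rw [mem_filter] at hv ⊢
      refine ⟨mem_univ _, ?_⟩
      have h6 := hv.2
      rw [hcount v, Nat.div_lt_iff_lt_mul hKa] at h6
      rw [mul_comm]
      exact h6
    have h6 : ((∑ s ∈ range (n / K + 1), (N * a * A).choose s : ℕ) : ℝ) ≤
        (2 : ℝ) ^ ((n : ℝ) / A) := by
      refine h4 n (N * a * A) (n / K) ?_ ?_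
      · calc N * a * A = N * (a * A) := by ring
          _ ≤ n := hNn
      · calc K4 * (n / K) ≤ K * (n / K) := Nat.mul_le_mul_right _ le4
          _ ≤ n := Nat.mul_div_le n K
    obtain ⟨hl1, hl2⟩ := h1 K n w a le1 ha hw hn N k (2 * A * N / k + 1)
      (k / (4 * A * A)) (n / A) (w / (K * a)) S
      (∑ s ∈ range (n / K + 1), (N * a * A).choose s) hN hk rfl rfl rfl rfl h6
    have hAA : 2 ≤ a * A := by nlinarith
    have key := hLOQ N ((k + 1) * N) k a A σ h (k / (4 * A * A)) (2 * A * N / k + 1) (N / A)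
      (w / (K * a)) (n / K) (n / A) (k / (4 * A * A)) S r line' rule' hr1 (Nat.div_le_self _ _)
      (Nat.le_add_left 1 _) (by omega) hAA hE1 hE2 href' hcond hl1
    exact hl2 key
  · obtain ⟨P, hP, hPc⟩ := hUPB N ((k + 1) * N) k a A σ h hk1 ha (by omega) hh
    obtain ⟨r, line, rule, href, hlen⟩ := hSEQ (Fin n) _ _ _ (hTRU _ _ ι _ _ _ hP)
    refine ⟨(P.image (ren ι)).card, r, line, rule, href, fun i l hl => ?_, le_trans ?_ hU3⟩
    · exact (Nat.mul_le_mul_left a (hlen i l hl)).trans hU1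
    · have : (P.image (ren ι)).card ≤
          (1 + a * 2 ^ (A - 1)) ^ N * 2 ^ (k * a * A) * (k * a * A + 1) :=
        Finset.card_image_le.trans hPc
      exact_mod_cast this

end Pool.Agent.H97.SDG
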