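import Pool.Agent.H97.SDQ.Targets

/-!
Definitions for the third part of the project SD on `MP_c62aed_lc`: general refutations.
-/

set_option autoImplicit false

open Finset

namespace Pool.Agent.H97.SDG

open Pool.Agent.H97.SD Pool.Agent.H97.SDQ

/-- The blocks which are a place of exactly one constraint of `J`. -/
def bd {N M k : ℕ} (σ : Fin M → Fin k → Fin N) (J : Finset (Fin M)) : Finset (Fin N) :=
  univ.filter (fun j => ∃ c ∈ J, (∃ i, σ c i = j) ∧ ∀ c' ∈ J, (∃ i, σ c' i = j) → c' = c)

/-- Small sets of constraints have a large boundary. -/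
def E3 {N M k : ℕ} (σ : Fin M → Fin k → Fin N) (s₀ : ℕ) : Prop :=
  ∀ J : Finset (Fin M), J.card ≤ s₀ → k * J.card ≤ 2 * (bd σ J).card

/-- The assignment `α` with the bit `u j` of each block `j ∈ O` flipped. -/
def flp {N a b : ℕ} (α : BV N a b → Bool) (u : Fin N → Fin a × Fin b) (O : Finset (Fin N)) :
    BV N a b → Bool :=
  fun v => if v.1 ∈ O ∧ v.2 = u v.1 then !(α v) else α v

/-- The blocks `j` such that the bit `u j` occurs in `C`. -/
def alive {N a b : ℕ} (u : Fin N → Fin a × Fin b) (C : Clause (BV N a b)) : Finset (Fin N) :=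
  univ.filter (fun j => (j, u j) ∈ C.image Prod.fst)

/-- All groups of a block are even. -/
def EvenB {a b : ℕ} (β : Fin a × Fin b → Bool) : Prop :=
  ∀ g, Even (univ.filter (fun i : Fin b => β (g, i) = true)).card

/-- `J` implies `C` on the assignments `flp α u O`. -/
def Imp {N a b M k : ℕ} (σ : Fin M → Fin k → Fin N) (h : Fin M → ℕ) (α : BV N a b → Bool)
    (u : Fin N → Fin a × Fin b) (J : Finset (Fin M)) (C : Clause (BV N a b)) : Prop :=
  ∀ O : Finset (Fin N), (∀ c ∈ J, wt σ c O ≠ h c) → ¬ Falsified C (flp α u O)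

end Pool.Agent.H97.SDG
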