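import Pool.Agent.H97.SDG.All
import Pool.Agent.H88.SDG.KEG

/-!
# The theorem (third part of SD)
-/

set_option autoImplicit false

namespace Pool.Agent.H97.SDG

open Finset Pool.Agent.H97.SD Pool.Agent.H97.SDQ

theorem final : P_FIG := tFIG (Pool.Agent.H88.SDG.pf_KEG Pool.Agent.H36.SD.pf_PAT)

end Pool.Agent.H97.SDG
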