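import Pool.Agent.H97.SDG.Defs

/-!
Statements of the modules of the third part of the project SD on `MP_c62aed_lc`.
-/

set_option autoImplicit false

open Finset

namespace Pool.Agent.H97.SDG

open Pool.Agent.H97.SD Pool.Agent.H97.SDQ

/-! ## Existence of `σ` -/

open Classical in
/-- [CE3] The number of `σ` without (E3). -/
def P_CE3 : Prop :=
  ∀ N M k s₀ : ℕ, s₀ ≤ M → k * s₀ ≤ N →
    (univ.filter (fun σ : Fin M → Fin k → Fin N => ¬ E3 σ s₀)).card ≤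
      ∑ s ∈ Icc 1 s₀, M.choose s * N.choose (3 * k * s / 4) * (3 * k * s / 4) ^ (k * s) *
        N ^ (k * (M - s))

/-- [NF1] The numerical inequality for (E1), with the factor 4. -/
def P_NF1 : Prop :=
  ∀ A : ℕ, 1 ≤ A → ∃ k₀ : ℕ, ∀ k N : ℕ, k₀ ≤ k → k ≤ N →
    4 * (((k + 1) * N).choose (2 * A * N / k + 1) * 2 ^ N *
      (N - N / A - 1) ^ (k * (2 * A * N / k + 1)) *
        N ^ (k * ((k + 1) * N - (2 * A * N / k + 1)))) < N ^ (k * ((k + 1) * N))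

/-- [NF2] The numerical inequality for (E2), with the factor 4. -/
def P_NF2 : Prop :=
  ∀ A : ℕ, 1 ≤ A → ∃ k₀ : ℕ, ∀ k N : ℕ, k₀ ≤ k → k ≤ N →
    4 * ∑ s ∈ Icc 1 (2 * A * N / k + 1), ((k + 1) * N).choose s * N.choose s *
      (2 ^ k * s ^ (k / (4 * A * A)) * N ^ (k - k / (4 * A * A))) ^ s *
        N ^ (k * ((k + 1) * N - s)) < N ^ (k * ((k + 1) * N))

/-- [NF3] The numerical inequality for (E3). -/
def P_NF3 : Prop :=
  ∃ k₀ : ℕ, ∀ k N : ℕ, k₀ ≤ k → k ≤ N →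
    4 * ∑ s ∈ Icc 1 (N / (1000 * k)), ((k + 1) * N).choose s * N.choose (3 * k * s / 4) *
      (3 * k * s / 4) ^ (k * s) * N ^ (k * ((k + 1) * N - s)) < N ^ (k * ((k + 1) * N))

/-- [EXG] Existence of `σ`. -/
def P_EXG : Prop :=
  ∀ A : ℕ, 1 ≤ A → ∃ k₀ : ℕ, ∀ k N : ℕ, k₀ ≤ k → k ≤ N →
    ∃ σ : Fin ((k + 1) * N) → Fin k → Fin N,
      E1 σ (2 * A * N / k + 1) (N / A) ∧ E2 σ (2 * A * N / k + 1) (k / (4 * A * A)) ∧
        E3 σ (N / (1000 * k))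

/-! ## Width -/

/-- [SAG] Small sets of constraints are satisfiable. -/
def P_SAG : Prop :=
  ∀ (N M k : ℕ) (σ : Fin M → Fin k → Fin N) (h : Fin M → ℕ) (p r : ℕ), 1 ≤ N → r ≤ k →
    E2 σ p r → ∀ J : Finset (Fin M), J.card ≤ p → ∃ O : Finset (Fin N), ∀ c ∈ J, wt σ c O ≠ h c

/-- [BDG] A minimal set of constraints which implies a clause: the clause contains the chosen bits
of the boundary. -/
def P_BDG : Prop :=
  ∀ (N M k a b : ℕ) (σ : Fin M → Fin k → Fin N) (h : Fin M → ℕ) (α : BV N a b → Bool)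
    (u : Fin N → Fin a × Fin b) (J : Finset (Fin M)) (C : Clause (BV N a b)),
    Imp σ h α u J C → (∀ c ∈ J, ¬ Imp σ h α u (J.erase c) C) → bd σ J ⊆ alive u C

/-- [WIG] Under each restriction some line of a refutation is wide. -/
def P_WIG : Prop :=
  ∀ (N M k a b : ℕ) (σ : Fin M → Fin k → Fin N) (h : Fin M → ℕ) (r p s₀ S r₀ : ℕ)
    (line : ℕ → Clause (BV N a b)) (rule : ℕ → Rule (BV N a b)) (α : BV N a b → Bool)
    (u : Fin N → Fin a × Fin b), 1 ≤ N → r ≤ k → 2 ≤ s₀ → s₀ ≤ p → E2 σ p r → E3 σ s₀ →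
    IsRef (FF a b σ h) S r₀ line rule → EvenA α →
    ∃ i, i < S ∧ (∃ O, Falsified (line i) (flp α u O)) ∧ k * s₀ ≤ 4 * (alive u (line i)).card

/-! ## Counting -/

open Classical in
/-- [KEG] One block: few pairs of an even assignment and a bit of `C` are such that all other
literals of `C` are false. -/
def P_KEG : Prop :=
  ∀ (a b : ℕ) (C : Finset ((Fin a × Fin b) × Bool)), 3 ≤ b →
    ((univ : Finset ((Fin a × Fin b → Bool) × (Fin a × Fin b))).filter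
      (fun z => EvenB z.1 ∧ z.2 ∈ C.image Prod.fst ∧ ∀ l ∈ C, l.1 ≠ z.2 → z.1 l.1 ≠ l.2)).card ≤
        2 * 2 ^ ((b - 1) * a)

/-- [CNG] Counting the restrictions. -/
def P_CNG : Prop :=
  ∀ (N a b S W : ℕ) (line : ℕ → Clause (BV N a b)), 1 ≤ a → 3 ≤ b →
    (∀ (α : BV N a b → Bool) (u : Fin N → Fin a × Fin b), EvenA α →
      ∃ i, i < S ∧ (∃ O, Falsified (line i) (flp α u O)) ∧ W ≤ (alive u (line i)).card) →
    (a * b) ^ W ≤ S * 2 ^ N * 2 ^ W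

/-! ## The end -/

/-- [PLG] The lower bound for general refutations, numerically. -/
def P_PLG : Prop :=
  ∃ A₀ : ℕ, ∀ A : ℕ, A₀ ≤ A → 3 ≤ A ∧ ∃ K₀ : ℕ, 1 ≤ K₀ ∧ ∀ K n w a : ℕ,
    K₀ ≤ K → 1 ≤ a → K * a ≤ w → K * w ≤ n → ∀ N k s₀ S : ℕ, N = n / (a * A) →
      k = w / (a * A) → s₀ = N / (1000 * k) →
      2 ≤ s₀ ∧ s₀ ≤ 2 * A * N / k + 1 ∧
      ((a * A) ^ (k * s₀ / 4) ≤ S * 2 ^ N * 2 ^ (k * s₀ / 4) →
        (2 : ℝ) ^ ((n : ℝ) * (1 + Real.logb 2 a) / (K * a)) ≤ S)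

/-- [FIG] The final theorem. -/
def P_FIG : Prop :=
  ∀ ε : ℝ, 0 < ε → ∃ K : ℕ, 1 ≤ K ∧ ∀ n w a : ℕ, 1 ≤ a → K * a ≤ w → K * w ≤ n →
    ∃ F : Finset (Clause (Fin n)), (∀ C ∈ F, C.card ≤ w) ∧ F.card ≤ n * w * 2 ^ w ∧
      (∀ z, ∃ C ∈ F, Falsified C z) ∧
      (∀ (S r : ℕ) (line : ℕ → Clause (Fin n)) (rule : ℕ → Rule (Fin n)),
        IsRef F S r line rule →
        (2 : ℝ) ^ ((n : ℝ) * (1 + Real.logb 2 a) / (K * a)) ≤ S ∧
        ((∀ (i : ℕ) (l : List (Fin n)), Path rule r i l →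
          K * (univ.filter (fun v => w < K * a * l.count v)).card ≤ n) →
          (2 : ℝ) ^ ((1 - ε) * n) ≤ S)) ∧
      ∃ (S r : ℕ) (line : ℕ → Clause (Fin n)) (rule : ℕ → Rule (Fin n)),
        IsRef F S r line rule ∧
        (∀ (i : ℕ) (l : List (Fin n)), Path rule r i l → a * l.length ≤ n * w) ∧
        (S : ℝ) ≤ (2 : ℝ) ^ ((n : ℝ) * (1 + Real.logb 2 a) / a + 2 * w)

end Pool.Agent.H97.SDG
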